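import Pool.Agent.MVS.Stmts
import Pool.Agent.Helper36_RF.Chr

/-!
MVS, row FLL: linearity of `Vf` and `DVf`.
-/

set_option autoImplicit false

open scoped ContDiff Topology RealInnerProductSpace
open Set

namespace Pool.Agent.MVS.H10

open Pool.Agent.RF Pool.Agent.MVS

theorem pN_add_pP (κ : Finset (Fin 5)) (x : E5) : pN κ x + pP κ x = x := by
  have h : (pN κ + pP κ) x = x := by
    unfold pN pP
    rw [add_comm, Finset.sum_add_sum_compl]
    ext j
    simp [eb, _root_.sum_apply, Pi.single_apply]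
  exact h

theorem pN_ne {κ : Finset (Fin 5)} {σ y : E5} (h1 : pP κ σ = 0) (h2 : σ ≠ 0) (h3 : pN κ y = 0)
    (t : ℝ) : pN κ (σ + t • y) ≠ 0 := by
  rw [map_add, map_smul, h3, smul_zero, add_zero]
  intro h4
  apply h2
  rw [← pN_add_pP κ σ, h1, h4, add_zero]

theorem vf_diff {G : E5 → Bil E5} {κ : Finset (Fin 5)} {F : E5 → E5} (hF : NData G κ F) {σ y : E5}
    (h1 : pP κ σ = 0) (h2 : σ ≠ 0) (h3 : pN κ y = 0) (w : E5) (t : ℝ) :
    DifferentiableAt ℝ (Vf κ F σ y w) t := by
  have hop : IsOpen {z : E5 | pN κ z ≠ 0} := isOpen_ne_fun (pN κ).continuous continuous_const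
  have h4 : ContDiffAt ℝ ∞ F (σ + t • y) := hF.smooth.contDiffAt (hop.mem_nhds (pN_ne h1 h2 h3 t))
  have h5 : DifferentiableAt ℝ (fderiv ℝ F) (σ + t • y) :=
    (h4.fderiv_right (m := 1) (by norm_cast)).differentiableAt (by norm_num)
  have h6 : DifferentiableAt ℝ (fun s : ℝ => σ + s • y) t := by fun_prop
  have h7 : DifferentiableAt ℝ (fun s : ℝ => fderiv ℝ F (σ + s • y)) t :=
    DifferentiableAt.comp t h5 h6
  have h8 : DifferentiableAt ℝ (fun s : ℝ => pN κ w + s • pP κ w) t := by fun_prop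
  exact h7.clm_apply h8

theorem fll : FllStatement := by
  intro G κ a b F _ hF σ y h1 h2 h3 w w' r t
  have e1 : ∀ t, Vf κ F σ y (w + w') t = Vf κ F σ y w t + Vf κ F σ y w' t := by
    intro t
    unfold Vf
    rw [← map_add]
    congr 1
    rw [map_add, map_add, smul_add]
    abel
  have e2 : ∀ t, Vf κ F σ y (r • w) t = r • Vf κ F σ y w t := by
    intro t
    unfold Vf
    have h : pN κ (r • w) + t • pP κ (r • w) = r • (pN κ w + t • pP κ w) := by
      rw [map_smul, map_smul, smul_add, smul_comm t r]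
    rw [h, map_smul]
  have d1 := (vf_diff hF h1 h2 h3 w t).hasDerivAt
  have d2 := (vf_diff hF h1 h2 h3 w' t).hasDerivAt
  refine ⟨e1 t, e2 t, ?_, ?_⟩
  · have h4 : deriv (Vf κ F σ y (w + w')) t = deriv (Vf κ F σ y w) t + deriv (Vf κ F σ y w') t := by
      have h5 : Vf κ F σ y (w + w') = fun t => Vf κ F σ y w t + Vf κ F σ y w' t := funext e1
      rw [h5]
      exact (d1.add d2).deriv
    unfold DVf
    rw [h4, e1 t, chris_add_right]
    abel
  · have h4 : deriv (Vf κ F σ y (r • w)) t = r • deriv (Vf κ F σ y w) t := by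
      have h5 : Vf κ F σ y (r • w) = fun t => r • Vf κ F σ y w t := funext e2
      rw [h5]
      exact (d1.const_smul r).deriv
    unfold DVf
    rw [h4, e2 t, chris_smul_right, smul_add]

end Pool.Agent.MVS.H10
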