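import Pool.Agent.MVS.Stmts
import Pool.Agent.Helper5_RF.Cyl
import Pool.Agent.Helper36_RF.Chr

/-!
MVS, row SPD: constant speed and constant `|c|` along geodesics of a cylinder metric.
-/

set_option autoImplicit false

open scoped ContDiff Topology RealInnerProductSpace
open Set

namespace Pool.Agent.MVS.H10

open Pool.Agent.RF Pool.Agent.MVS

theorem spd (hM : McoStatement) : SpdStatement := by
  intro G hG c hc hOm hgeo t
  have h1 : ∀ t, HasDerivAt c (deriv c t) t := fun t =>
    (hc.differentiable (by simp)).differentiableAt.hasDerivAt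
  have hc' : ContDiff ℝ ∞ (deriv c) := (contDiff_infty_iff_deriv.1 hc).2
  have h2 : ∀ t, HasDerivAt (deriv c) (deriv (deriv c) t) t := fun t =>
    (hc'.differentiable (by simp)).differentiableAt.hasDerivAt
  have hchr : ∀ t, chris G (c t) (deriv c t) (c t) = - deriv c t := fun t =>
    (H5.cyl chrStatement (Fin 5) G hG (c t) (hOm t)).1 _
  have z1 : ∀ t, deriv (deriv c) t + chris G (c t) (deriv c t) (deriv c t) = 0 := by
    intro t
    rw [hgeo t, neg_add_cancel]
  have z2 : ∀ t, deriv c t + chris G (c t) (deriv c t) (c t) = 0 := by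
    intro t
    rw [hchr t, add_neg_cancel]
  have e1 : ∀ t, HasDerivAt (fun s => G (c s) (deriv c s) (deriv c s)) 0 t := by
    intro t
    have h := hM (Fin 5) G (Om (Fin 5)) hG.metric c (deriv c) (deriv c) _ _ _ t (hOm t) (h1 t)
      (h2 t) (h2 t)
    rw [z1 t, map_zero, map_zero, _root_.zero_apply, add_zero] at h
    exact h
  have e2 : ∀ t, HasDerivAt (fun s => G (c s) (c s) (deriv c s)) 0 t := by
    intro t
    have h := hM (Fin 5) G (Om (Fin 5)) hG.metric c c (deriv c) _ _ _ t (hOm t) (h1 t)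
      (h1 t) (h2 t)
    rw [z1 t, z2 t, map_zero, map_zero, _root_.zero_apply, add_zero] at h
    exact h
  have k1 : ∀ t, G (c t) (deriv c t) (deriv c t) = G (c 0) (deriv c 0) (deriv c 0) := fun t =>
    is_const_of_deriv_eq_zero (fun t => (e1 t).differentiableAt) (fun t => (e1 t).deriv) t 0
  have k2 : ∀ t, G (c t) (c t) (deriv c t) = G (c 0) (c 0) (deriv c 0) := fun t =>
    is_const_of_deriv_eq_zero (fun t => (e2 t).differentiableAt) (fun t => (e2 t).deriv) t 0
  refine ⟨k1 t, fun h0 => ?_⟩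
  have k3 : ∀ t, ⟪c t, deriv c t⟫ = (0 : ℝ) := by
    intro t
    have h3 := k2 t
    rw [hG.radial _ (hOm t), hG.radial _ (hOm 0), h0, zero_div] at h3
    have h4 : ‖c t‖ ^ 2 ≠ 0 := by
      have : c t ≠ 0 := hOm t
      positivity
    rcases div_eq_zero_iff.1 h3 with h5 | h5
    · exact h5
    · exact absurd h5 h4
  have e3 : ∀ t, HasDerivAt (fun s => ⟪c s, c s⟫) (0 : ℝ) t := by
    intro t
    have h := (h1 t).inner ℝ (h1 t)
    have h5 : ⟪deriv c t, c t⟫ = (0 : ℝ) := by rw [real_inner_comm]; exact k3 t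
    rw [k3 t, h5, add_zero] at h
    exact h
  have k4 : ∀ t, ⟪c t, c t⟫ = (⟪c 0, c 0⟫ : ℝ) := fun t =>
    is_const_of_deriv_eq_zero (fun t => (e3 t).differentiableAt) (fun t => (e3 t).deriv) t 0
  refine ⟨?_, k3 t⟩
  have h6 := k4 t
  rw [real_inner_self_eq_norm_sq, real_inner_self_eq_norm_sq] at h6
  exact (sq_eq_sq₀ (norm_nonneg _) (norm_nonneg _)).1 h6

end Pool.Agent.MVS.H10
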